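import Pool.Agent.Helper57.QZ.Stmts2

/-! Row GD2 of the second sheet: `ζ'/ζ` and `log |ζ|` against short Dirichlet polynomials. -/

set_option autoImplicit false

namespace Pool.Agent.Helper57.QZ

open MeasureTheory Set Filter Topology

namespace S7

theorem hasDerivAt_log_norm {f : ℝ → ℂ} {f' : ℂ} {x : ℝ} (hf : HasDerivAt f f' x)
    (h0 : f x ≠ 0) : HasDerivAt (fun y => Real.log ‖f y‖) ((f' / f x).re) x := by
  have h1 := hf.norm_sq
  have hp : (0:ℝ) < ‖f x‖ := norm_pos_iff.2 h0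
  have hp2 : (‖f x‖ ^ 2 : ℝ) ≠ 0 := by positivity
  have h2 := (h1.log hp2).const_mul (1/2 : ℝ)
  have e : (fun y => Real.log ‖f y‖) = fun y => (1/2 : ℝ) * Real.log (‖f y‖ ^ 2) := by
    funext y; rw [Real.log_pow]; push_cast; ring
  rw [e]
  refine h2.congr_deriv ?_
  rw [Complex.inner, Complex.div_re, ← Complex.sq_norm]
  simp only [Complex.mul_re, Complex.conj_re, Complex.conj_im]
  field_simp
  ring

theorem hasDerivAt_pt (t x : ℝ) : HasDerivAt (fun x : ℝ => pt x t) 1 x := by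
  unfold pt
  exact (Complex.ofRealCLM.hasDerivAt).add_const _

theorem continuous_pt (t : ℝ) : Continuous (fun x : ℝ => pt x t) := by
  unfold pt; fun_prop

theorem pt_ne {t : ℝ} (ht : t ≠ 0) (x : ℝ) : pt x t ≠ 1 := by
  intro h
  have := congrArg Complex.im h
  simp [pt] at this
  exact ht this

theorem diffFy (y : ℕ) {s : ℂ} (hs : s ≠ 1) : DifferentiableAt ℂ (Fy y) s := by
  have h : ∀ p : Pr y, DifferentiableAt ℂ (fun s : ℂ => (1 : ℂ) - ((p : ℕ) : ℂ) ^ (-s)) s := by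
    intro p
    have hp : (((p : ℕ) : ℂ)) ≠ 0 := by
      have := (Nat.prime_of_mem_primesBelow p.2).ne_zero
      exact_mod_cast this
    exact (differentiableAt_const _).sub ((differentiableAt_id.neg).const_cpow (Or.inl hp))
  have h2 : DifferentiableAt ℂ (fun s : ℂ => ∏ p : Pr y, ((1 : ℂ) - ((p : ℕ) : ℂ) ^ (-s))) s :=
    (HasDerivAt.fun_finsetProd (u := Finset.univ) fun p _ => (h p).hasDerivAt).differentiableAt
  exact ((differentiableAt_riemannZeta hs).mul h2).sub_const 1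

theorem cont_deriv (y : ℕ) {t : ℝ} (ht : t ≠ 0) : Continuous (fun x : ℝ => deriv (Fy y) (pt x t)) := by
  have hd : DifferentiableOn ℂ (Fy y) ({1}ᶜ : Set ℂ) := fun s hs =>
    (diffFy y hs).differentiableWithinAt
  have h1 := (hd.deriv isOpen_compl_singleton).continuousOn
  exact h1.comp_continuous (continuous_pt t) fun x => pt_ne ht x

theorem hasDerivAt_Fy (y : ℕ) {t : ℝ} (ht : t ≠ 0) (x : ℝ) :
    HasDerivAt (fun x : ℝ => Fy y (pt x t) + 1) (deriv (Fy y) (pt x t)) x := by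
  have h := ((diffFy y (pt_ne ht x)).hasDerivAt).comp x (hasDerivAt_pt t x)
  simpa using h.add_const 1

/-- bound of the logarithm near `1` -/
theorem log_near {w : ℂ} (h : ‖w‖ ≤ 1 / 2) : |Real.log ‖w + 1‖| ≤ 2 * ‖w‖ := by
  have h1 : ‖w + 1‖ ≤ ‖w‖ + 1 := by simpa using norm_add_le w 1
  have h2 : 1 - ‖w‖ ≤ ‖w + 1‖ := by
    have := norm_sub_norm_le (1 : ℂ) (-w)
    simp only [norm_one, norm_neg, sub_neg_eq_add] at this
    rwa [add_comm w 1]
  have h0 : 0 ≤ ‖w‖ := norm_nonneg w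
  have hp : 0 < ‖w + 1‖ := by linarith
  rw [abs_le]
  constructor
  · have h3 := Real.log_le_sub_one_of_pos (inv_pos.2 hp)
    rw [Real.log_inv] at h3
    have h4 : ‖w + 1‖⁻¹ ≤ 1 + 2 * ‖w‖ := by
      rw [inv_le_comm₀ hp (by linarith)]
      refine le_trans ?_ h2
      rw [inv_le_comm₀ (by linarith) (by linarith)]
      rw [inv_eq_one_div, div_le_iff₀ (by linarith)]
      nlinarith
    linarith
  · have h3 := Real.log_le_sub_one_of_pos hp
    linarith

/-- `Fy` on the line `4` -/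
theorem Fy_four (hEP : ST_EP) : ∃ K : ℝ, 0 < K ∧ ∀ y : ℕ, 1 ≤ y → ∀ t : ℝ,
    ‖Fy y (pt 4 t)‖ ≤ K / y := by
  have hs : Summable (fun n : ℕ => 1 / (n : ℝ) ^ 2) := Real.summable_one_div_nat_pow.2 (by norm_num)
  refine ⟨∑' n : ℕ, 1 / (n : ℝ) ^ 2 + 1, by positivity, fun y hy t => ?_⟩
  have hre : (pt 4 t).re = 4 := by simp [pt]
  have h := hEP y (pt 4 t) (by rw [hre]; norm_num)
  have hy' : (1 : ℝ) ≤ y := by exact_mod_cast hy
  have hb : ∀ n : ℕ, ‖(if 2 ≤ n ∧ (∀ p ∈ n.primeFactors, y < p) then (n : ℂ) ^ (-(pt 4 t)) else 0)‖ ≤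
      1 / (y : ℝ) * (1 / (n : ℝ) ^ 2) := by
    intro n
    split_ifs with hn
    · obtain ⟨h2, hp⟩ := hn
      have hn0 : n ≠ 0 := by omega
      have hyn : y < n := by
        obtain ⟨q, hq, hqn⟩ := Nat.exists_prime_and_dvd (show n ≠ 1 by omega)
        exact (hp q (Nat.mem_primeFactors.2 ⟨hq, hqn, hn0⟩)).trans_le (Nat.le_of_dvd (by omega) hqn)
      have hyn' : (y : ℝ) ≤ n := by exact_mod_cast hyn.le
      have hn1 : (0:ℝ) < n := by positivity
      rw [Complex.norm_natCast_cpow_of_pos (by omega), Complex.neg_re, hre]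
      rw [show (-(4:ℝ)) = ((-4 : ℤ) : ℝ) by norm_num, Real.rpow_intCast]
      rw [zpow_neg, ← one_div, div_mul_div_comm, one_mul]
      rw [show (n : ℝ) ^ (4 : ℤ) = (n : ℝ) ^ 2 * (n : ℝ) ^ 2 by norm_cast; ring]
      apply one_div_le_one_div_of_le (by positivity)
      apply mul_le_mul_of_nonneg_right _ (by positivity)
      nlinarith
    · simp only [norm_zero]; positivity
  have h1 := tsum_of_norm_bounded (hs.hasSum.mul_left (1 / (y : ℝ))) hb
  rw [h.tsum_eq] at h1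
  refine h1.trans ?_
  rw [one_div, ← div_eq_inv_mul]
  gcongr
  linarith

/-- everything that is needed of large `T` -/
theorem large (A K η T₁ : ℝ) (hA : 3 ≤ A) (hη : 0 < η) : ∃ T₀ : ℝ, 4 ≤ T₀ ∧ T₁ ≤ T₀ ∧
    ∀ T : ℝ, T₀ ≤ T → 1 ≤ Real.log T ∧ 2 ≤ zA A T ∧ K / (zA A T : ℝ) ≤ η ∧
      (((zA A T : ℝ) ^ 3) ^ (5:ℝ)) * Real.exp (-(Real.log T ^ 2)) ≤ 1 := by
  have hz : Tendsto (fun T : ℝ => zA A T) atTop atTop :=
    tendsto_nat_floor_atTop.comp ((tendsto_rpow_atTop (by linarith)).comp Real.tendsto_log_atTop)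
  have hz' : Tendsto (fun T : ℝ => (zA A T : ℝ)) atTop atTop := tendsto_natCast_atTop_atTop.comp hz
  have e1 : ∀ᶠ T : ℝ in atTop, 1 ≤ Real.log T := Real.tendsto_log_atTop.eventually_ge_atTop 1
  have e2 : ∀ᶠ T : ℝ in atTop, 2 ≤ zA A T := hz.eventually_ge_atTop 2
  have e3 : ∀ᶠ T : ℝ in atTop, K / (zA A T : ℝ) ≤ η :=
    ((tendsto_const_nhds.div_atTop hz').eventually (ge_mem_nhds hη))
  have e4 : ∀ᶠ L : ℝ in atTop, L ^ (15 * A) ≤ Real.exp L := by
    have h := (isLittleO_rpow_exp_atTop (15 * A)).bound (show (0:ℝ) < 1 by norm_num)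
    filter_upwards [h, eventually_ge_atTop 0] with L hL h0
    rw [Real.norm_of_nonneg (Real.rpow_nonneg h0 _), Real.norm_of_nonneg (Real.exp_pos _).le,
      one_mul] at hL
    exact hL
  have e5 := Real.tendsto_log_atTop.eventually e4
  obtain ⟨T₀, h⟩ := eventually_atTop.1 (e1.and (e2.and (e3.and e5)))
  refine ⟨max 4 (max T₁ T₀), le_max_left _ _, (le_max_left _ _).trans (le_max_right _ _), ?_⟩
  intro T hT
  obtain ⟨a1, a2, a3, a4⟩ := h T (((le_max_right _ _).trans (le_max_right _ _)).trans hT)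
  refine ⟨a1, a2, a3, ?_⟩
  have hL : 0 < Real.log T := by linarith
  have b1 : (zA A T : ℝ) ≤ Real.log T ^ A := Nat.floor_le (Real.rpow_nonneg hL.le _)
  have b2 : ((zA A T : ℝ) ^ 3) ^ (5:ℝ) ≤ Real.log T ^ (15 * A) := by
    calc ((zA A T : ℝ) ^ 3) ^ (5:ℝ) = (zA A T : ℝ) ^ 15 := by
          rw [show (5:ℝ) = ((5:ℕ) : ℝ) by norm_num, Real.rpow_natCast, ← pow_mul]
      _ ≤ (Real.log T ^ A) ^ 15 := by gcongr
      _ = Real.log T ^ (15 * A) := by
          rw [← Real.rpow_natCast, ← Real.rpow_mul hL.le]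
          congr 1
          push_cast
          ring
  have b3 : Real.exp (-(Real.log T ^ 2)) ≤ Real.exp (-(Real.log T)) := by
    apply Real.exp_le_exp.2
    nlinarith
  calc (((zA A T : ℝ) ^ 3) ^ (5:ℝ)) * Real.exp (-(Real.log T ^ 2))
      ≤ Real.exp (Real.log T) * Real.exp (-(Real.log T)) :=
        mul_le_mul (b2.trans a4) b3 (Real.exp_pos _).le (Real.exp_pos _).le
    _ = 1 := by rw [← Real.exp_add]; simp

/-- the coefficients are bounded -/
theorem KK_le {C : ℝ} (hC : 0 < C) (h : ∀ (Y H x : ℝ) (n : ℕ), 2 ≤ Y → 1 ≤ H →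
    x ∈ Icc (1 / 2 : ℝ) 4 → 1 ≤ n → ‖KK Y H x n‖ ≤ C * (Y / n) ^ (5 - x) ∧
    ((n : ℝ) ≤ Y → ‖KK Y H x n - 1‖ ≤ C * (n / Y + Y ^ (5:ℝ) * Real.exp (-(H ^ 2)))))
    {Y H x : ℝ} {n : ℕ} (hY : 2 ≤ Y) (hH : 1 ≤ H) (hx : x ∈ Icc (1 / 2 : ℝ) 4) (hn : 1 ≤ n)
    (hYH : Y ^ (5:ℝ) * Real.exp (-(H ^ 2)) ≤ 1) : ‖KK Y H x n‖ ≤ 1 + 2 * C := by
  obtain ⟨h1, h2⟩ := h Y H x n hY hH hx hn
  have hY0 : (0:ℝ) < Y := by linarith
  have hn0 : (0:ℝ) < n := by exact_mod_cast hn
  rcases le_or_gt (n : ℝ) Y with hc | hc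
  · have h3 := h2 hc
    have h4 : (n : ℝ) / Y ≤ 1 := by rw [div_le_one hY0]; exact hc
    have h5 : ‖KK Y H x n - 1‖ ≤ C * (1 + 1) := h3.trans (by gcongr)
    calc ‖KK Y H x n‖ = ‖(KK Y H x n - 1) + 1‖ := by ring_nf
      _ ≤ ‖KK Y H x n - 1‖ + ‖(1:ℂ)‖ := norm_add_le _ _
      _ ≤ 1 + 2 * C := by rw [norm_one]; linarith
  · have h3 : (Y / n) ^ (5 - x) ≤ 1 := by
      apply Real.rpow_le_one (by positivity) _ (by linarith [hx.2])
      rw [div_le_one hn0]; exact hc.le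
    have h4 : C * (Y / n) ^ (5 - x) ≤ C * 1 := by gcongr
    linarith

end S7

open S7

theorem gd2_of (h1 : ST_GD1) (h2 : ST_KE1) (h3 : ST_KE3) (h4 : ST_BR) (h5 : ST_EP) : ST_GD2 := by
  intro ε hε
  obtain ⟨A₀, hA₀, hG⟩ := h1 ε hε
  obtain ⟨C, hC, hK⟩ := h2
  obtain ⟨K, hK0, hF⟩ := Fy_four h5
  refine ⟨4 * (1 + 2 * C), A₀, by positivity, hA₀, fun A hA η hη => ?_⟩
  obtain ⟨T₁, hT₁, hG1⟩ := hG A hA (η / 8) (by positivity)
  obtain ⟨T₀, hT₀, hT01, hL⟩ := large A K (min (1 / 2) (η / 8)) T₁ (hA₀.trans hA)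
    (lt_min (by norm_num) (by positivity))
  refine ⟨T₀, hT₀, fun T hT σ hσ => ?_⟩
  obtain ⟨l1, l2, l3, l4⟩ := hL T hT
  have hG2 := hG1 T (hT01.trans hT)
  clear hG1 hL hG
  generalize zA A T = z at *
  have hε0 := hε.1
  have hσ1 := hσ.1
  have hσ2 := hσ.2
  have hz2 : (2:ℝ) ≤ z := by exact_mod_cast l2
  have hY : (2:ℝ) ≤ (z : ℝ) ^ 3 := by nlinarith [sq_nonneg ((z:ℝ) - 2)]
  have hσ4 : σ ≤ 4 := by linarith
  obtain ⟨g, hgdef⟩ : ∃ g : ℕ → ℝ → ℂ, g = fun (p : ℕ) (x : ℝ) =>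
    ((Real.log p * (p : ℝ) ^ (-x) : ℝ) : ℂ) *
    KK ((z : ℝ) ^ 3) (Real.log T) x p := ⟨_, rfl⟩
  have hg : ∀ p : ℕ, 1 ≤ p → ∀ x ∈ Icc σ 4,
      ‖g p x‖ ≤ (1 + 2 * C) * ((p : ℝ) ^ (-(1 / 2 + ε)) * Real.log p) := by
    intro p hp x hx
    have hp1 : (1:ℝ) ≤ p := by exact_mod_cast hp
    have hlog : 0 ≤ Real.log p := Real.log_nonneg hp1
    have hpow : (p:ℝ) ^ (-x) ≤ (p:ℝ) ^ (-(1 / 2 + ε)) :=
      Real.rpow_le_rpow_of_exponent_le hp1 (by linarith [hx.1])
    have hk := KK_le hC hK hY l1 (x := x) ⟨by linarith [hx.1], hx.2⟩ hp l4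
    rw [hgdef]
    simp only
    rw [norm_mul, Complex.norm_real, Real.norm_of_nonneg (by positivity)]
    calc Real.log p * (p:ℝ) ^ (-x) * ‖KK ((z : ℝ) ^ 3) (Real.log T) x p‖
        ≤ Real.log p * (p:ℝ) ^ (-(1 / 2 + ε)) * (1 + 2 * C) := by gcongr
      _ = _ := by ring
  have hgc : ∀ p : ℕ, 1 ≤ p → ContinuousOn (g p) (Icc σ 4) := by
    intro p hp
    have hp0 : (0:ℝ) < p := by exact_mod_cast hp
    rw [hgdef]
    have c1 : Continuous (fun x : ℝ => ((Real.log p * (p : ℝ) ^ (-x) : ℝ) : ℂ)) :=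
      Complex.continuous_ofReal.comp
        (continuous_const.mul ((Real.continuous_const_rpow hp0.ne').comp continuous_neg))
    exact c1.continuousOn.mul ((h3 _ _ p (by linarith) (by linarith) hp).mono
      (Icc_subset_Icc (by linarith) le_rfl))
  have hgi : ∀ p : ℕ, 1 ≤ p → IntervalIntegrable (g p) volume σ 4 := fun p hp =>
    (hgc p hp).intervalIntegrable_of_Icc hσ4
  refine ⟨fun p => -g p σ, fun p => ∫ x in σ..4, g p x, fun p hp => ?_, fun t ht hgood => ?_⟩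
  · have hp1 : 1 ≤ p := by omega
    have hp1' : (1:ℝ) ≤ p := by exact_mod_cast hp1
    have hX : 0 ≤ (p : ℝ) ^ (-(1 / 2 + ε)) * Real.log p :=
      mul_nonneg (Real.rpow_nonneg (by positivity) _) (Real.log_nonneg hp1')
    constructor
    · rw [norm_neg]
      refine (hg p hp1 σ ⟨le_rfl, hσ4⟩).trans ?_
      nlinarith [mul_nonneg (by positivity : (0:ℝ) ≤ 1 + 2 * C) hX]
    · have hb := intervalIntegral.norm_integral_le_of_norm_le_const (a := σ) (b := 4)
        (f := g p) (C := (1 + 2 * C) * ((p : ℝ) ^ (-(1 / 2 + ε)) * Real.log p))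
        (fun x hx => hg p hp1 x (by
          rw [uIoc_of_le hσ4] at hx
          exact ⟨hx.1.le, hx.2⟩))
      refine hb.trans ?_
      have hab : |4 - σ| ≤ 4 := by rw [abs_of_nonneg (by linarith)]; linarith
      calc (1 + 2 * C) * ((p : ℝ) ^ (-(1 / 2 + ε)) * Real.log p) * |4 - σ|
          ≤ (1 + 2 * C) * ((p : ℝ) ^ (-(1 / 2 + ε)) * Real.log p) * 4 := by gcongr
        _ = _ := by ring
  · have ht0 : t ≠ 0 := by
      have := ht.1
      have := hT₀.trans hT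
      intro h
      linarith
    have hz0 : ∀ x ∈ Icc σ 4, riemannZeta (pt x t) ≠ 0 := fun x hx =>
      hgood x ⟨by linarith [hx.1], by linarith [hx.2]⟩ t (by simp; linarith)
    have hGx : ∀ x ∈ Icc σ 4, ‖deriv riemannZeta (pt x t) / riemannZeta (pt x t) -
        Wy z x (lin z t) + ∑ p ∈ Pz z, g p x *
        Complex.exp (-((t * Real.log p : ℝ) * Complex.I))‖ ≤ η / 8 := by
      intro x hx
      rw [hgdef]
      exact hG2 x ⟨by linarith [hx.1], hx.2⟩ t ht hgood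
    have hsσ : σ ∈ Icc σ 4 := ⟨le_rfl, hσ4⟩
    have hs4 : (4:ℝ) ∈ Icc σ 4 := ⟨hσ4, le_rfl⟩
    have hBRx : ∀ x ∈ Icc σ 4, Zy z x (lin z t) ≠ 0 ∧ Fy z (pt x t) + 1 ≠ 0 ∧
        riemannZeta (pt x t) = Zy z x (lin z t) * (Fy z (pt x t) + 1) ∧
        deriv riemannZeta (pt x t) / riemannZeta (pt x t) - Wy z x (lin z t) =
          deriv (Fy z) (pt x t) / (Fy z (pt x t) + 1) := by
      intro x hx
      obtain ⟨b1, b2, b3⟩ := h4 z x t (by linarith [hx.1]) ht0
      have hne := hz0 x hx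
      have hne2 : Fy z (pt x t) + 1 ≠ 0 := by
        intro h
        rw [h, mul_zero] at b2
        exact hne b2
      refine ⟨b1, hne2, b2, ?_⟩
      have e : deriv riemannZeta (pt x t) / riemannZeta (pt x t) - Wy z x (lin z t) =
          (Zy z x (lin z t) * deriv (Fy z) (pt x t)) / riemannZeta (pt x t) := by
        rw [b3]
        field_simp
        ring
      rw [e, b2, mul_div_mul_left _ _ b1]
    have hD : ∀ x ∈ Icc σ 4, Real.log ‖riemannZeta (pt x t)‖ - Real.log ‖Zy z x (lin z t)‖ =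
        Real.log ‖Fy z (pt x t) + 1‖ := by
      intro x hx
      obtain ⟨b1, b2, b3, _⟩ := hBRx x hx
      rw [b3, norm_mul, Real.log_mul (norm_ne_zero_iff.2 b1) (norm_ne_zero_iff.2 b2)]
      ring
    have cF : Continuous (fun x : ℝ => Fy z (pt x t) + 1) :=
      continuous_iff_continuousAt.2 fun x => (hasDerivAt_Fy z ht0 x).continuousAt
    have cL : ContinuousOn (fun x : ℝ => deriv (Fy z) (pt x t) / (Fy z (pt x t) + 1)) (Icc σ 4) :=
      (cont_deriv z ht0).continuousOn.div cF.continuousOn fun x hx => (hBRx x hx).2.1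
    have iL := cL.intervalIntegrable_of_Icc (μ := volume) hσ4
    have iLr : IntervalIntegrable (fun x : ℝ =>
        (deriv (Fy z) (pt x t) / (Fy z (pt x t) + 1)).re) volume σ 4 :=
      (Complex.continuous_re.comp_continuousOn cL).intervalIntegrable_of_Icc hσ4
    have ftc := intervalIntegral.integral_eq_sub_of_hasDerivAt (a := σ) (b := 4)
      (f := fun x : ℝ => Real.log ‖Fy z (pt x t) + 1‖)
      (f' := fun x : ℝ => (deriv (Fy z) (pt x t) / (Fy z (pt x t) + 1)).re)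
      (fun x hx => hasDerivAt_log_norm (hasDerivAt_Fy z ht0 x)
        ((hBRx x (by rwa [uIcc_of_le hσ4] at hx)).2.1)) iLr
    have hre := Complex.reCLM.intervalIntegral_comp_comm iL
    simp only [Complex.reCLM_apply] at hre
    rw [hre] at ftc
    have hP1 : ∀ p ∈ Pz z, 1 ≤ p := by
      intro p hp
      have := (Finset.mem_filter.1 hp).2
      exact this.one_lt.le
    have iP : ∀ p ∈ Pz z, IntervalIntegrable (fun x => g p x *
        Complex.exp (-((t * Real.log p : ℝ) * Complex.I))) volume σ 4 := fun p hp =>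
      (hgi p (hP1 p hp)).mul_const _
    have hsum : ∫ x in σ..4, ∑ p ∈ Pz z, g p x *
        Complex.exp (-((t * Real.log p : ℝ) * Complex.I)) =
        ∑ p ∈ Pz z, (∫ x in σ..4, g p x) *
        Complex.exp (-((t * Real.log p : ℝ) * Complex.I)) := by
      rw [intervalIntegral.integral_finset_sum iP]
      refine Finset.sum_congr rfl fun p _ => ?_
      rw [intervalIntegral.integral_mul_const]
    have iS : IntervalIntegrable (fun x => ∑ p ∈ Pz z, g p x *
        Complex.exp (-((t * Real.log p : ℝ) * Complex.I))) volume σ 4 := by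
      have e : (fun x : ℝ => ∑ p ∈ Pz z, g p x *
          Complex.exp (-((t * Real.log p : ℝ) * Complex.I))) =
          ∑ p ∈ Pz z, fun x : ℝ => g p x *
          Complex.exp (-((t * Real.log p : ℝ) * Complex.I)) := by
        funext x
        rw [Finset.sum_apply]
      rw [e]
      exact IntervalIntegrable.sum (Pz z) iP
    have hq : ‖∫ x in σ..4, (deriv (Fy z) (pt x t) / (Fy z (pt x t) + 1) +
        ∑ p ∈ Pz z, g p x * Complex.exp (-((t * Real.log p : ℝ) * Complex.I)))‖ ≤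
        η / 8 * |4 - σ| := by
      refine intervalIntegral.norm_integral_le_of_norm_le_const fun x hx => ?_
      rw [uIoc_of_le hσ4] at hx
      have hx' : x ∈ Icc σ 4 := ⟨hx.1.le, hx.2⟩
      rw [← (hBRx x hx').2.2.2]
      exact hGx x hx'
    rw [intervalIntegral.integral_add iL iS, hsum] at hq
    have hab : |4 - σ| ≤ 4 := by rw [abs_of_nonneg (by linarith)]; linarith
    refine ⟨hz0 σ hsσ, ?_, ?_⟩
    · have h := hGx σ hsσ
      have e : deriv riemannZeta (pt σ t) / riemannZeta (pt σ t) - Wy z σ (lin z t) -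
          ∑ p ∈ Pz z, -g p σ * Complex.exp (-((t * Real.log p : ℝ) * Complex.I)) =
          deriv riemannZeta (pt σ t) / riemannZeta (pt σ t) - Wy z σ (lin z t) +
          ∑ p ∈ Pz z, g p σ * Complex.exp (-((t * Real.log p : ℝ) * Complex.I)) := by
        rw [sub_eq_add_neg _ (∑ p ∈ Pz z, _), ← Finset.sum_neg_distrib]
        congr 1
        refine Finset.sum_congr rfl fun p _ => ?_
        ring
      rw [e]
      linarith
    · rw [hD σ hsσ]
      have hF4 := hF z (by omega) t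
      have hF4' : ‖Fy z (pt 4 t)‖ ≤ min (1 / 2) (η / 8) := hF4.trans l3
      have hD4 := log_near (hF4'.trans (min_le_left _ _))
      have hD4' : |Real.log ‖Fy z (pt 4 t) + 1‖| ≤ η / 4 := by
        have := hF4'.trans (min_le_right _ _)
        linarith
      have hre2 := (Complex.abs_re_le_norm _).trans hq
      rw [Complex.add_re, ftc] at hre2
      have h8 : η / 8 * |4 - σ| ≤ η / 2 := by nlinarith
      have h9 := hre2.trans h8
      rw [abs_le] at h9 hD4' ⊢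
      constructor <;> linarith [h9.1, h9.2, hD4'.1, hD4'.2]

end Pool.Agent.Helper57.QZ
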